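import Pool.Agent.helper53.DC.SpecI

set_option autoImplicit false

namespace Pool.Agent.helper87.DC

open Pool.Agent.helper53.DC

noncomputable section

/-- the reflection as a linear equivalence -/
def I7_rfE {Z : Type} [Fintype Z] (n : LL Z) (hn : lf n n = 1) : LL Z ≃ₗ[ℝ] LL Z :=
  LinearEquiv.ofInvolutive (rfL n) fun v => rf_rf hn v

theorem I7_rfE_apply {Z : Type} [Fintype Z] (n : LL Z) (hn : lf n n = 1) (v : LL Z) :
    I7_rfE n hn v = rf n v := rfl

/-- the action of `W` on Lorentz space by permutations of the coordinates -/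
def I7_tau (W Z : Type) [Group W] [MulAction W Z] : W →* (LL Z ≃ₗ[ℝ] LL Z) where
  toFun g :=
    { toFun := fun v => (v.1, fun z => v.2 (g⁻¹ • z))
      map_add' := fun v w => rfl
      map_smul' := fun c v => rfl
      invFun := fun v => (v.1, fun z => v.2 (g • z))
      left_inv := fun v => by
        refine Prod.ext rfl (funext fun z => ?_)
        show v.2 (g⁻¹ • g • z) = v.2 z
        rw [inv_smul_smul]
      right_inv := fun v => by
        refine Prod.ext rfl (funext fun z => ?_)
        show v.2 (g • g⁻¹ • z) = v.2 z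
        rw [smul_inv_smul] }
  map_one' := by
    refine LinearEquiv.ext fun v => Prod.ext rfl (funext fun z => ?_)
    show v.2 ((1 : W)⁻¹ • z) = v.2 z
    rw [inv_one, one_smul]
  map_mul' g h := by
    refine LinearEquiv.ext fun v => Prod.ext rfl (funext fun z => ?_)
    show v.2 ((g * h)⁻¹ • z) = v.2 (h⁻¹ • g⁻¹ • z)
    rw [mul_inv_rev, mul_smul]

theorem I7_tau_apply {W Z : Type} [Group W] [MulAction W Z] (g : W) (v : LL Z) :
    I7_tau W Z g v = (v.1, fun z => v.2 (g⁻¹ • z)) := rfl

theorem I7_lf_tau {W Z : Type} [Group W] [Fintype Z] [MulAction W Z] (g : W) (v w : LL Z) :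
    lf (I7_tau W Z g v) (I7_tau W Z g w) = lf v w := by
  unfold lf
  rw [I7_tau_apply, I7_tau_apply]
  congr 1
  exact Equiv.sum_comp (MulAction.toPerm g⁻¹) (fun z => v.2 z * w.2 z)

theorem I7 (hA2 : A2_stmt) (hA8 : A8_stmt) : I7_stmt := by
  intro B W _ M cs Z _ _ β a h1 h2 h3
  let n : Wall cs → LL Z := fun r => (-a, β r)
  have hlf : ∀ r r', lf (n r) (n r') = -(a * a) + ∑ z, β r z * β r' z := by
    intro r r'
    show -(-a * -a) + ∑ z, β r z * β r' z = _
    rw [neg_mul_neg]
  have hn : ∀ r, lf (n r) (n r) = 1 := by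
    intro r
    rw [hlf, h2]; ring
  have hn' : ∀ r r', (cw cs).Cross r r' → lf (n r) (n r') = 0 := by
    intro r r' h
    rw [hlf, h3 r r' h]; ring
  let lab : Wall cs → (LL Z ≃ₗ[ℝ] LL Z) := fun r => I7_rfE (n r) (hn r)
  obtain ⟨κ, hκ1, hκ⟩ := hA2 cs lab
    (by
      intro r
      refine LinearEquiv.ext fun v => ?_
      show rf (n r) (rf (n r) v) = v
      exact rf_rf (hn r) v)
    (by
      intro r r' hr
      by_cases he : r = r'
      · rw [he]
      · refine LinearEquiv.ext fun v => ?_
        show rf (n r) (rf (n r') v) = rf (n r') (rf (n r) v)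
        exact rf_comm (hn' r r' (hA8 cs r r' hr he)) v)
  let τ := I7_tau W Z
  have hτn : ∀ g r, τ g (n r) = n (g • r) := by
    intro g r
    refine Prod.ext rfl (funext fun z => ?_)
    show β r (g⁻¹ • z) = β (g • r) z
    rw [← h1 g r (g⁻¹ • z), smul_inv_smul]
  have hτlab : ∀ g r, τ g * lab r = lab (g • r) * τ g := by
    intro g r
    refine LinearEquiv.ext fun v => ?_
    show τ g (rf (n r) v) = rf (n (g • r)) (τ g v)
    unfold rf
    rw [map_sub, map_smul, hτn, ← hτn g r, I7_lf_tau]
  have hwall : ∀ (g h : W) i, g • wall cs h i = wall cs (g * h) i := by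
    intro g h i
    apply Subtype.ext
    rw [smul_wall_val, wall_val, wall_val]
    group
  have hκm : ∀ g h, κ (g * h) * τ g = κ g * τ g * κ h := by
    intro g h
    induction h using cs.simple_induction_right with
    | one => rw [mul_one, hκ1, mul_one]
    | mul_simple_right h i ih =>
      rw [← mul_assoc, hκ, hκ, mul_assoc, ← hwall, ← hτlab, ← mul_assoc, ih, mul_assoc, mul_assoc]
  let ρ₀ : W →* (LL Z ≃ₗ[ℝ] LL Z) :=
    { toFun := fun g => κ g * τ g
      map_one' := by rw [hκ1, map_one, mul_one]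
      map_mul' := by
        intro g h
        rw [map_mul, ← mul_assoc, hκm, mul_assoc] }
  have hκlf : ∀ g v w, lf (κ g v) (κ g w) = lf v w := by
    intro g
    induction g using cs.simple_induction_right with
    | one => intro v w; rw [hκ1]; rfl
    | mul_simple_right h i ih =>
      intro v w
      rw [hκ]
      show lf (κ h (rf (n (wall cs h i)) v)) (κ h (rf (n (wall cs h i)) w)) = lf v w
      rw [ih, lf_rf_rf (hn _)]
  refine ⟨(LinearEquiv.automorphismGroup.toLinearMapMonoidHom).comp ρ₀, ?_, ?_⟩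
  · intro g v w
    show lf (κ g (τ g v)) (κ g (τ g w)) = lf v w
    rw [hκlf, I7_lf_tau]
  · intro N x w hx0 hx
    show κ (x N) (τ (x N) x0) = _
    have hτx : τ (x N) x0 = (x0 : LL Z) := rfl
    rw [hτx]
    have key : ∀ m ≤ N, ∀ v, κ (x m) v = kap (fun k => ((-a, β (w k)) : LL Z)) m v := by
      intro m
      induction m with
      | zero => intro _ v; rw [hx0, hκ1]; rfl
      | succ m ih =>
        intro hm v
        obtain ⟨i, hi1, hi2⟩ := hx m (by omega)
        rw [hi2, hκ, ← hi1]
        show κ (x m) (rf (n (w m)) v) = _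
        rw [ih (by omega)]
        rfl
    exact key N le_rfl x0

end

end Pool.Agent.helper87.DC
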