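import Pool.Agent.helper53.DC.SpecV

set_option autoImplicit false

namespace Pool.Agent.helper87.DC

open Pool.Agent.helper53.DC

noncomputable section

variable {B W : Type} [Group W] {M : CoxeterMatrix B} (cs : CoxeterSystem M W)

/-- the action on the labels of a normal subgroup -/
def V9_smul (N : Subgroup W) (hN : N.Normal) (g : W) : Lab cs N → Lab cs N :=
  Quotient.map (fun r => g • r) (by
    intro r r' h
    have h1 : lab cs N r = lab cs N r' := Quotient.sound h
    obtain ⟨n, hn, rfl⟩ := (lab_eq cs).mp h1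
    have h2 : lab cs N (g • r) = lab cs N (g • n • r) := by
      refine (lab_eq cs).mpr ⟨g * n * g⁻¹, hN.conj_mem n hn g, ?_⟩
      rw [mul_smul, mul_smul, inv_smul_smul]
    exact Quotient.exact h2)

theorem V9_smul_lab (N : Subgroup W) (hN : N.Normal) (g : W) (r : Wall cs) :
    V9_smul cs N hN g (lab cs N r) = lab cs N (g • r) := rfl

def V9_act (N : Subgroup W) (hN : N.Normal) : MulAction W (Lab cs N) where
  smul := V9_smul cs N hN
  one_smul o := by
    induction o using Quotient.inductionOn with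
    | h r => exact (V9_smul_lab cs N hN 1 r).trans (by rw [one_smul]; rfl)
  mul_smul g h o := by
    induction o using Quotient.inductionOn with
    | h r =>
      show V9_smul cs N hN (g * h) (lab cs N r) =
        V9_smul cs N hN g (V9_smul cs N hN h (lab cs N r))
      rw [V9_smul_lab, V9_smul_lab, V9_smul_lab, mul_smul]

theorem V9_cross_ne (r r' : Wall cs) (h : (cw cs).Cross r r') : r ≠ r' := by
  rintro rfl
  obtain ⟨x, h1, h2⟩ := h true false
  have h3 : x ∈ (cw cs).H r ↔ true = true := h1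
  have h4 : x ∈ (cw cs).H r ↔ false = true := h2
  have h5 := h3.mpr rfl
  exact Bool.false_ne_true (h4.mp h5)

/-- the normal subgroup -/
theorem V9_N (hA4 : A4_stmt) (hA5 : A5_stmt) (hA19 : A19_stmt) (hR9 : R9_stmt) [Finite B] (R : ℕ) :
    ∃ N : Subgroup W, N.Normal ∧ N.FiniteIndex ∧
      ∀ r r' : Wall cs, r ≠ r' → Vis cs R r r' → lab cs N r ≠ lab cs N r' := by
  classical
  have hball : {y : W | dd cs 1 y ≤ R}.Finite := hA19 cs 1 R
  have hS : (⋃ y ∈ {y : W | dd cs 1 y ≤ R}, {r : Wall cs | (cw cs).Sep r 1 y}).Finite :=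
    hball.biUnion fun y _ => (hA5 cs 1 y).1
  set S := ⋃ y ∈ {y : W | dd cs 1 y ≤ R}, {r : Wall cs | (cw cs).Sep r 1 y} with hSdef
  let F : Finset W := ((hS.toFinset ×ˢ hS.toFinset).filter fun p => p.1 ≠ p.2).image
    fun p => p.2.1 * p.1.1
  have hinv : ∀ r : Wall cs, r.1 * r.1 = 1 := fun r => r.2.mul_self
  obtain ⟨N, hN, hNf, hNF⟩ := hR9 cs F (by
    intro g hg
    simp only [F, Finset.mem_image, Finset.mem_filter] at hg
    obtain ⟨p, ⟨-, hp⟩, rfl⟩ := hg
    intro h
    apply hp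
    apply Subtype.ext
    have h1 := hinv p.1
    have h2 : p.2.1 * p.1.1 * p.1.1 = p.1.1 := by rw [h, one_mul]
    rw [mul_assoc, h1, mul_one] at h2
    exact h2.symm)
  refine ⟨N, hN, hNf, ?_⟩
  rintro r r' hne ⟨x, y, hxy, h1, h2⟩ hlab
  obtain ⟨n, hn, hnr⟩ := (lab_eq cs).mp hlab
  -- translate `x` to `1`
  have e1 : (cw cs).Sep (x⁻¹ • r) 1 (x⁻¹ * y) := by
    have := (hA4 cs x⁻¹ r x y).mpr h1
    rwa [inv_mul_cancel] at this
  have e2 : (cw cs).Sep (x⁻¹ • r') 1 (x⁻¹ * y) := by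
    have := (hA4 cs x⁻¹ r' x y).mpr h2
    rwa [inv_mul_cancel] at this
  have e3 : dd cs 1 (x⁻¹ * y) ≤ R := by
    have := dd_left cs x⁻¹ x y
    rw [inv_mul_cancel] at this
    rw [this]; exact hxy
  have m1 : x⁻¹ • r ∈ S := Set.mem_biUnion e3 e1
  have m2 : x⁻¹ • r' ∈ S := Set.mem_biUnion e3 e2
  have hF : (x⁻¹ • r').1 * (x⁻¹ • r).1 ∈ F := by
    refine Finset.mem_image.mpr ⟨(x⁻¹ • r, x⁻¹ • r'), ?_, rfl⟩
    rw [Finset.mem_filter, Finset.mem_product]
    refine ⟨⟨hS.mem_toFinset.mpr m1, hS.mem_toFinset.mpr m2⟩, ?_⟩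
    intro h
    exact hne (smul_left_cancel _ h)
  apply hNF _ hF
  rw [smul_wall_val, smul_wall_val]
  have h3 : r'.1 = n * r.1 * n⁻¹ := by rw [← hnr, smul_wall_val]
  have h4 : x⁻¹ * r'.1 * x⁻¹⁻¹ * (x⁻¹ * r.1 * x⁻¹⁻¹) = x⁻¹ * (n * (r.1 * n⁻¹ * r.1⁻¹)) * x⁻¹⁻¹ := by
    have h5 : r.1⁻¹ = r.1 := inv_eq_of_mul_eq_one_left (hinv r)
    rw [h3, h5]
    group
  rw [h4]
  exact hN.conj_mem _ (N.mul_mem hn (hN.conj_mem _ (N.inv_mem hn) r.1)) _

theorem V9 (hA4 : A4_stmt) (hA5 : A5_stmt) (hA19 : A19_stmt) (hA20 : A20_stmt) (hA24 : A24_stmt)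
    (hR9 : R9_stmt) : V9_stmt := by
  intro B W _ _ M cs C hKD
  classical
  obtain ⟨R0, hR0⟩ := hA24 cs
  have hD : (0 : ℝ) < max C 0 + 1 := by
    have := le_max_right C 0
    linarith
  set a : ℝ := 1 / Real.sqrt (max C 0 + 1) with ha
  have ha0 : 0 < a := by
    rw [ha]; exact div_pos one_pos (Real.sqrt_pos.mpr hD)
  have ha2 : a ^ 2 * (max C 0 + 1) = 1 := by
    rw [ha, div_pow, one_pow, Real.sq_sqrt hD.le]
    field_simp
  refine ⟨a, a ^ 2 / 2, ha0, by positivity, fun R => ?_⟩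
  obtain ⟨Z, _, _, b, hb1, hb2, hb3, hb4⟩ := hKD R
  obtain ⟨N, hN, hNf, hNv⟩ := V9_N cs hA4 hA5 hA19 hR9 (max R R0)
  have hvmono : ∀ R' R'', R' ≤ R'' → ∀ r r', Vis cs R' r r' → Vis cs R'' r r' := by
    rintro R' R'' h r r' ⟨x, y, h1, h2⟩
    exact ⟨x, y, h1.trans h, h2⟩
  have hfin : Finite (Lab cs N) := hA20 cs N hNf
  letI : Fintype (Lab cs N) := Fintype.ofFinite _
  letI : MulAction W (Lab cs N) := V9_act cs N hN
  have hsl : ∀ (g : W) (r : Wall cs), g • lab cs N r = lab cs N (g • r) := fun g r =>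
    V9_smul_lab cs N hN g r
  let nr : Wall cs → ℝ := fun r => Real.sqrt (1 + a ^ 2 - a ^ 2 * ∑ z, b r z * b r z)
  have hnr : ∀ r, nr r * nr r = 1 + a ^ 2 - a ^ 2 * ∑ z, b r z * b r z := by
    intro r
    apply Real.mul_self_sqrt
    have h1 : a ^ 2 * ∑ z, b r z * b r z ≤ a ^ 2 * (max C 0 + 1) := by
      apply mul_le_mul_of_nonneg_left _ (sq_nonneg a)
      have := hb2 r
      have := le_max_left C 0
      linarith
    rw [ha2] at h1
    have := sq_nonneg a
    linarith
  have hnrg : ∀ (g : W) r, nr (g • r) = nr r := by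
    intro g r
    show Real.sqrt _ = Real.sqrt _
    congr 3
    rw [← Equiv.sum_comp (MulAction.toPerm g)]
    refine Finset.sum_congr rfl fun z _ => ?_
    rw [MulAction.toPerm_apply, hb1]
  let β : Wall cs → Z ⊕ Lab cs N → ℝ := fun r s =>
    Sum.elim (fun z => a * b r z) (fun o => if o = lab cs N r then nr r else 0) s
  have hβl : ∀ r z, β r (Sum.inl z) = a * b r z := fun r z => rfl
  have hβr : ∀ r o, β r (Sum.inr o) = if o = lab cs N r then nr r else 0 := fun r o => rfl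
  have hsum : ∀ r r', ∑ s, β r s * β r' s = a ^ 2 * ∑ z, b r z * b r' z +
      if lab cs N r = lab cs N r' then nr r * nr r' else 0 := by
    intro r r'
    rw [Fintype.sum_sum_type]
    congr 1
    · rw [Finset.mul_sum]
      refine Finset.sum_congr rfl fun z _ => ?_
      rw [hβl, hβl]; ring
    · simp only [hβr]
      rw [Finset.sum_eq_single (lab cs N r)]
      · rw [if_pos rfl]
        split_ifs <;> simp
      · intro o _ ho
        rw [if_neg ho, zero_mul]
      · intro h; exact absurd (Finset.mem_univ _) h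
  refine ⟨Z ⊕ Lab cs N, inferInstance, inferInstance, β, ?_, ?_, ?_, ?_⟩
  · intro g r s
    rcases s with z | o
    · show β (g • r) (Sum.inl (g • z)) = β r (Sum.inl z)
      rw [hβl, hβl, hb1]
    · show β (g • r) (Sum.inr (g • o)) = β r (Sum.inr o)
      rw [hβr, hβr, hnrg, ← hsl]
      by_cases h : o = lab cs N r
      · rw [if_pos h, if_pos (by rw [h])]
      · rw [if_neg h, if_neg]
        intro h'
        exact h (smul_left_cancel g h')
  · intro r
    rw [hsum, if_pos rfl, hnr]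
    ring
  · intro r r' h
    have hne := V9_cross_ne cs r r' h
    have hv := hvmono R0 (max R R0) (le_max_right _ _) r r' (hR0 r r' h)
    rw [hsum, if_neg (hNv r r' hne hv), hb3 r r' h]
    ring
  · intro r r' h hv
    have hv' := hvmono R (max R R0) (le_max_left _ _) r r' hv
    rw [hsum, if_neg (hNv r r' h.1 hv')]
    have h1 := mul_le_mul_of_nonneg_left (hb4 r r' h hv) (sq_nonneg a)
    linarith

end

end Pool.Agent.helper87.DC
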